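import Pool.Agent.Lib.MP_edb5be_nt.PD.Iface2

/-!
Project PD (MP_edb5be_nt), module DENSB: DENS with functions depending on the sum.
-/

set_option autoImplicit false

namespace Pool.Agent.Lib.MP_edb5be_nt.PD.H97

open Finset Pool.Agent.Lib.MP_edb5be_nt.EX

theorem gw_filter {Γ : ℝ} {n : ℕ} {W : Finset (List ℕ)} (h : GW Γ n W) (p : List ℕ → Prop)
    [DecidablePred p] : GW Γ n (W.filter p) where
  len u hu := h.len u (mem_filter.1 hu).1
  pos u hu := h.pos u (mem_filter.1 hu).1
  lo u hu := h.lo u (mem_filter.1 hu).1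
  hi u hu := h.hi u (mem_filter.1 hu).1
  cb u hu := h.cb u (mem_filter.1 hu).1

theorem densb (hD : DensStatement) : DensBStatement := by
  intro Γ E n J W f y hΓ hE hG hJ h0 hf hav
  set B : Finset ℕ := (range (3 * n + 1)).filter fun b => 199 * n ≤ 100 * b ∧ 100 * b ≤ 201 * n
    with hB
  have hmaps : ∀ u ∈ W.filter (Ad y), u.sum ∈ B := by
    intro u hu
    rw [mem_filter] at hu
    have h1 := hG.lo u hu.1
    have h2 := hG.hi u hu.1
    rw [hB, mem_filter, mem_range]
    exact ⟨by omega, h1, h2⟩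
  have hcard : B.card ≤ n + 1 := by
    have hsub : B ⊆ Icc ((199 * n + 99) / 100) (201 * n / 100) := by
      intro b hb
      rw [hB, mem_filter] at hb
      rw [mem_Icc]
      omega
    refine (card_le_card hsub).trans ?_
    rw [Nat.card_Icc]
    omega
  have hc0 : 0 ≤ (Γ + 1) * ((n : ℝ) + 1) * E := by positivity
  rw [← sum_fiberwise_of_maps_to hmaps]
  have hle : ∀ b ∈ B, ∑ u ∈ (W.filter (Ad y)).filter (fun u => u.sum = b),
      wt u * f u.sum (zz y u) ≤ (Γ + 1) * ((n : ℝ) + 1) * E := by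
    intro b hb
    rw [hB, mem_filter] at hb
    have h1 := hD Γ n J (W.filter fun u => u.sum = b) (f b) y hΓ (gw_filter hG _) hJ (h0 b) (hf b)
    have h2 : ∑ u ∈ (W.filter (Ad y)).filter (fun u => u.sum = b), wt u * f u.sum (zz y u) =
        su (W.filter fun u => u.sum = b) (f b) y := by
      unfold su
      rw [filter_comm]
      refine sum_congr rfl fun u hu => ?_
      rw [(mem_filter.1 (mem_filter.1 hu).1).2]
    rw [h2]
    refine h1.trans ?_
    exact mul_le_mul_of_nonneg_left (hav b hb.2.1 hb.2.2) (by positivity)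
  refine (sum_le_sum hle).trans ?_
  rw [sum_const, nsmul_eq_mul]
  have hc : (B.card : ℝ) ≤ n + 1 := by exact_mod_cast hcard
  calc (B.card : ℝ) * ((Γ + 1) * ((n : ℝ) + 1) * E) ≤ (n + 1) * ((Γ + 1) * ((n : ℝ) + 1) * E) :=
        mul_le_mul_of_nonneg_right hc hc0
    _ = _ := by ring

end Pool.Agent.Lib.MP_edb5be_nt.PD.H97
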